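import Pool.Agent.Lib.MP_99bfa4_al.Main

/-!
Infinitely many stable spectra although G/H has no discrete series:
G = R_{>0} x SO(3), H = SO(2), G/H = R^3 minus the origin, Γ infinite cyclic.
-/

open Matrix MeasureTheory Pool.Agent.Lib.MP_99bfa4_al

namespace Pool.Agent.Results.MP_99bfa4_al.Counterexample

universe u

theorem result :
    (IsClosed (G : Set (GL (Fin 3) ℝ)) ∧ IsConnected (G : Set (GL (Fin 3) ℝ)) ∧
      (∀ g ∈ G, ∃ g' ∈ G, g'.val = g.valᵀ) ∧
      MulAction.IsPretransitive G X ∧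
      (∀ x : X, ∀ h ∈ G, h.val *ᵥ x.val = x.val → h.valᵀ *ᵥ x.val = x.val) ∧
      SMulInvariantMeasure G X mu ∧ IsFiniteMeasureOnCompacts mu ∧ mu ≠ 0) ∧
    ∃ Γ : Subgroup G, Admissible Γ ∧ InfStable (Subtype.val : Smooth → X → ℂ) Γ ∧
      ¬ DiscNonempty.{u} G mu := by
  refine ⟨⟨G_closed, G_connected, fun g hg => ⟨transp ⟨g, hg⟩, (transp ⟨g, hg⟩).property, rfl⟩,
    pretransitive, fun x h hh hx => congrArg Subtype.val (transp_stab x ⟨h, hh⟩ (Subtype.ext hx)),
    mu_invariant, mu_finite, mu_ne_zero⟩,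
    Subgroup.zpowers z, ⟨?_, discrete_of_discontinuous _ (discontinuous z sc_z),
    discontinuous z sc_z, ?_, exists_deformation⟩, infinite_stable, ?_⟩
  · exact ⟨{z}, by simp [Subgroup.zpowers_eq_closure]⟩
  · filter_upwards [eventually_sc] with φ hφ
    rw [range_eq]
    exact discontinuous _ hφ
  · rintro ⟨V, _, _, _, π, ⟨-, _, hirr⟩, T, hT0, hT⟩
    exact hT0 (disc_empty V π hirr T hT)

end Pool.Agent.Results.MP_99bfa4_al.Counterexample
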